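import Pool.Agent.Helper53.Engel.Flow

/-!
# Task I2: from a closed orbit to a curve parametrized by the last coordinate
-/

set_option autoImplicit false
open Topology Real MeasureTheory
open scoped ContDiff

noncomputable section

namespace Pool.Agent.Helper28.Engel

open Pool.Agent.Helper53.Engel

variable {P : Par}

/-! ### pointwise facts on `W` -/

theorem Wt_pos (P : Par) (p : V4) (hFF : ∀ i, 0 < P.FF i p.2.2) : 0 < (P.W p).2.2.2 := by
  rcases quiet_or_plug P p with hq | ⟨i, m, n, hp⟩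
  · rw [W_quiet P p hq]
    exact one_pos
  · have h1 := hFF i
    rw [FF_plug P i m n p hp] at h1
    rw [W_plug P i m n p hp]
    unfold plugW
    dsimp only
    have h2 := deriv_ff_nonneg (rho (p.2.2.1 - (P.cen i).1 - m, p.2.2.2 - (P.cen i).2 - n))
    have h3 : (0 : ℝ) < rr ^ 2 := by unfold rr; norm_num
    positivity

/-- reflection in the last coordinate -/
def mir (t0 : ℝ) (p : V4) : V4 := (p.1, p.2.1, p.2.2.1, 2 * t0 - p.2.2.2)

theorem window_slot {i : Fin 3} {n : ℤ} {t : ℝ} (h : |t - (P.cen i).2 - n| ≤ 1 / 16) :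
    t ∈ Set.Icc (n : ℝ) (n + 1 / 2) := by
  obtain ⟨h1, h2⟩ := cen_snd_mem P i
  rw [abs_le] at h
  constructor <;> linarith [h.1, h.2]

theorem window_free (i : Fin 3) (n : ℤ) (p : V4) (h : |p.2.2.2 - (P.cen i).2 - n| ≤ 1 / 16)
    (h1 : ¬ ∃ m, inPlug P i m n p) : P.W p = (0, 0, 0, 1) := by
  refine W_free P n p (window_slot h) fun i' m' n' => ?_
  by_contra hc
  push Not at hc
  have hr : 2 * rr ^ 2 < (1 / 16 : ℝ) ^ 2 := by unfold rr; norm_num
  have a1 : |p.2.2.1 - (P.cen i').1 - m'| < 1 / 16 := by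
    refine abs_lt_of_sq_lt_sq ?_ (by norm_num)
    nlinarith [sq_nonneg (p.2.2.2 - (P.cen i').2 - n')]
  have a2 : |p.2.2.2 - (P.cen i').2 - n'| < 1 / 16 := by
    refine abs_lt_of_sq_lt_sq ?_ (by norm_num)
    nlinarith [sq_nonneg (p.2.2.1 - (P.cen i').1 - m')]
  rw [cen_snd] at a2 h
  have a3 : |((i' : ℕ) : ℝ) + 8 * n' - ((i : ℕ) + 8 * n)| < 1 := by
    rw [abs_le] at h
    rw [abs_lt] at a2 ⊢
    constructor <;> linarith [h.1, h.2, a2.1, a2.2]
  have a4 : |((i' : ℕ) : ℤ) + 8 * n' - ((i : ℕ) + 8 * n)| < 1 := by exact_mod_cast a3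
  rw [Int.abs_lt_one_iff] at a4
  have b1 := i'.isLt
  have b2 := i.isLt
  have b3 : n' = n := by omega
  have b4 : i' = i := by
    apply Fin.ext
    omega
  subst b3 b4
  rw [← cen_snd P] at a2
  exact h1 ⟨m', lt_trans a1 (by norm_num), a2⟩

theorem W_mir (i : Fin 3) (n : ℤ) (p : V4) (h : |p.2.2.2 - (P.cen i).2 - n| ≤ 1 / 16)
    (hFF : 0 < P.FF i p.2.2) : P.W (mir ((P.cen i).2 + n) p) =
      (-(P.W p).1, -(P.W p).2.1, -(P.W p).2.2.1, (P.W p).2.2.2) := by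
  have hmt : (mir ((P.cen i).2 + n) p).2.2.2 - (P.cen i).2 - n
      = -(p.2.2.2 - (P.cen i).2 - n) := by
    unfold mir
    dsimp only
    ring
  by_cases h1 : ∃ m, inPlug P i m n p
  · obtain ⟨m, hm⟩ := h1
    have hm' : inPlug P i m n (mir ((P.cen i).2 + n) p) := by
      refine ⟨hm.1, ?_⟩
      rw [hmt, abs_neg]
      exact hm.2
    rw [FF_plug P i m n p hm] at hFF
    rw [W_plug P i m n _ hm', W_plug P i m n _ hm, hmt]
    have e : (mir ((P.cen i).2 + n) p).2.2.1 = p.2.2.1 := rfl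
    rw [e]
    have hr : 1 < rho (p.2.2.1 - (P.cen i).1 - m, p.2.2.2 - (P.cen i).2 - n) := by
      by_contra hc
      push Not at hc
      rcases hc.lt_or_eq with hc | hc
      · linarith [ff_neg _ hc]
      · rw [hc, ff_one] at hFF
        exact lt_irrefl _ hFF
    generalize p.2.2.1 - (P.cen i).1 - m = u1 at hr ⊢
    generalize p.2.2.2 - (P.cen i).2 - n = u2 at hr ⊢
    have er : rho (u1, -u2) = rho (u1, u2) := by
      unfold rho
      simp
    unfold plugW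
    dsimp only
    rw [er, GG_out _ (by linarith), deriv_GG_out _ (by linarith)]
    refine Prod.ext ?_ (Prod.ext ?_ (Prod.ext ?_ ?_))
    · dsimp only
      ring
    · dsimp only
      ring
    · dsimp only
      ring
    · dsimp only
  · have h2 : ¬ ∃ m, inPlug P i m n (mir ((P.cen i).2 + n) p) := by
      rintro ⟨m, hm⟩
      refine h1 ⟨m, hm.1, ?_⟩
      have := hm.2
      rw [hmt, abs_neg] at this
      exact this
    have h3 : |(mir ((P.cen i).2 + n) p).2.2.2 - (P.cen i).2 - n| ≤ 1 / 16 := by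
      rw [hmt, abs_neg]
      exact h
    rw [window_free i n _ h3 h2, window_free i n _ h h1]
    simp

theorem Wz_axis (i : Fin 3) (l : ℤ) (p : V4) (h : |p.2.2.2 - (P.cen i).2 - (0 : ℤ)| ≤ 1 / 16)
    (hz : p.2.2.1 = (P.cen i).1 + l) : (P.W p).2.2.1 = 0 := by
  by_cases h1 : ∃ m, inPlug P i m 0 p
  · obtain ⟨m, hm⟩ := h1
    have h2 := hm.1
    rw [hz] at h2
    have h3 : |((l - m : ℤ) : ℝ)| < 1 := by
      push_cast
      have : (P.cen i).1 + l - (P.cen i).1 - m = l - m := by ring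
      rw [this] at h2
      linarith
    have h4 : |l - m| < 1 := by exact_mod_cast h3
    rw [Int.abs_lt_one_iff] at h4
    have h5 : m = l := by omega
    subst h5
    rw [W_plug P i m 0 p hm]
    unfold plugW
    dsimp only
    have : p.2.2.1 - (P.cen i).1 - m = 0 := by rw [hz]; ring
    rw [this]
    simp
  · rw [window_free i 0 p h h1]

theorem W_gap (j : ℤ) (p : V4) (h : (j : ℝ) ≤ p.2.2.2 ∧ p.2.2.2 ≤ j + 1 / 16 ∨
    (j : ℝ) + 7 / 16 ≤ p.2.2.2 ∧ p.2.2.2 ≤ j + 1 / 2) : P.W p = (0, 0, 0, 1) := by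
  refine W_free P j p ?_ fun i m n => ?_
  · rcases h with h | h <;> constructor <;> linarith [h.1, h.2]
  · obtain ⟨h1, h2⟩ := cen_snd_mem P i
    have h3 : 1 / 16 ≤ |p.2.2.2 - (P.cen i).2 - n| := by
      rcases le_or_gt n j with h3 | h3
      · rcases h with h | h
        · rcases h3.lt_or_eq with h4 | h4
          · have h5 : (n : ℝ) + 1 ≤ j := by exact_mod_cast h4
            rw [le_abs]
            left
            linarith [h.1]
          · subst h4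
            rw [le_abs]
            right
            linarith [h.2]
        · have h5 : (n : ℝ) ≤ j := by exact_mod_cast h3
          rw [le_abs]
          left
          linarith [h.1]
      · have h5 : (j : ℝ) + 1 ≤ n := by exact_mod_cast h3
        rw [le_abs]
        right
        rcases h with h | h <;> linarith [h.2]
    have h4 : (1 / 16 : ℝ) ^ 2 ≤ (p.2.2.2 - (P.cen i).2 - n) ^ 2 := by
      rw [← sq_abs (p.2.2.2 - (P.cen i).2 - n)]
      exact pow_le_pow_left₀ (by norm_num) h3 2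
    have hr : 2 * rr ^ 2 < (1 / 16 : ℝ) ^ 2 := by unfold rr; norm_num
    nlinarith [sq_nonneg (p.2.2.1 - (P.cen i).1 - m)]

/-! ### the time change -/

section orbit

variable {γ : ℝ → V4} (hγ : ∀ s, HasDerivAt γ (P.W (γ s)) s)
  (hFF : ∀ i s, 0 < P.FF i (γ s).2.2)

include hγ

theorem hasDeriv_1 (s : ℝ) : HasDerivAt (fun s => (γ s).1) (P.W (γ s)).1 s :=
  prx.hasFDerivAt.comp_hasDerivAt s (hγ s)

theorem hasDeriv_2 (s : ℝ) : HasDerivAt (fun s => (γ s).2.1) (P.W (γ s)).2.1 s :=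
  pry.hasFDerivAt.comp_hasDerivAt s (hγ s)

theorem hasDeriv_3 (s : ℝ) : HasDerivAt (fun s => (γ s).2.2.1) (P.W (γ s)).2.2.1 s :=
  prz.hasFDerivAt.comp_hasDerivAt s (hγ s)

theorem hasDeriv_4 (s : ℝ) : HasDerivAt (fun s => (γ s).2.2.2) (P.W (γ s)).2.2.2 s :=
  prt.hasFDerivAt.comp_hasDerivAt s (hγ s)

include hFF in
theorem time_mono : StrictMono (fun s => (γ s).2.2.2) := by
  refine strictMono_of_deriv_pos fun s => ?_
  rw [(hasDeriv_4 hγ s).deriv]
  exact Wt_pos P _ fun i => hFF i s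

theorem time_cont : Continuous (fun s => (γ s).2.2.2) :=
  continuous_iff_continuousAt.2 fun s => (hasDeriv_4 hγ s).continuousAt

end orbit

theorem passage {γ : ℝ → V4} (hγ : ∀ s, HasDerivAt γ (P.W (γ s)) s)
    (hFF : ∀ i s, 0 < P.FF i (γ s).2.2) {K : NNReal} (hK : LipschitzWith K P.W)
    (i : Fin 3) (n : ℤ) (s0 sm : ℝ) (h0 : (γ s0).2.2.2 = (P.cen i).2 + n)
    (hm : (γ sm).2.2.2 = (P.cen i).2 + n - 1 / 16) :
    γ (s0 + (s0 - sm)) = mir ((P.cen i).2 + n) (γ sm) := by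
  have hmono := time_mono hγ hFF
  have hlt : sm < s0 := by
    rw [← hmono.lt_iff_lt, h0, hm]
    linarith
  set t0 : ℝ := (P.cen i).2 + n with ht0
  have hg : ∀ u, HasDerivAt (fun u => mir t0 (γ (s0 - u)))
      (-(P.W (γ (s0 - u))).1, -(P.W (γ (s0 - u))).2.1, -(P.W (γ (s0 - u))).2.2.1,
        (P.W (γ (s0 - u))).2.2.2) u := by
    intro u
    have d1 := (hasDeriv_1 hγ (s0 - u)).comp_const_sub s0 u
    have d2 := (hasDeriv_2 hγ (s0 - u)).comp_const_sub s0 u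
    have d3 := (hasDeriv_3 hγ (s0 - u)).comp_const_sub s0 u
    have d4 := ((hasDeriv_4 hγ (s0 - u)).comp_const_sub s0 u).const_sub (2 * t0)
    rw [neg_neg] at d4
    exact d1.prodMk (d2.prodMk (d3.prodMk d4))
  have hf : ∀ u, HasDerivAt (fun u => γ (s0 + u)) (P.W (γ (s0 + u))) u := fun u =>
    (hγ (s0 + u)).comp_const_add s0 u
  have key : Set.EqOn (fun u => γ (s0 + u)) (fun u => mir t0 (γ (s0 - u)))
      (Set.Icc 0 (s0 - sm)) := by
    refine ODE_solution_unique (v := fun _ => P.W) (K := K) (fun _ => hK) ?_ ?_ ?_ ?_ ?_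
    · exact fun u _ => (hf u).continuousAt.continuousWithinAt
    · exact fun u _ => (hf u).hasDerivWithinAt
    · exact fun u _ => (hg u).continuousAt.continuousWithinAt
    · intro u hu
      have h1 : |(γ (s0 - u)).2.2.2 - (P.cen i).2 - n| ≤ 1 / 16 := by
        have a1 : (γ (s0 - u)).2.2.2 ≤ (γ s0).2.2.2 := hmono.monotone (by linarith [hu.1])
        have a2 : (γ sm).2.2.2 ≤ (γ (s0 - u)).2.2.2 := hmono.monotone (by linarith [hu.2])
        rw [abs_le]
        constructor <;> linarith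
      have h2 := W_mir i n (γ (s0 - u)) h1 (hFF i _)
      rw [← ht0] at h2
      rw [h2]
      exact (hg u).hasDerivWithinAt
    · simp only [add_zero, sub_zero]
      unfold mir
      refine Prod.ext rfl (Prod.ext rfl (Prod.ext rfl ?_))
      dsimp only
      rw [h0]
      ring
  have h3 := key (Set.right_mem_Icc.2 (by linarith))
  simp only [sub_sub_cancel] at h3
  exact h3

/-- on the axis of a plug the orbit would hit the boundary of the disc -/
theorem axis_false {γ : ℝ → V4} (hγ : ∀ s, HasDerivAt γ (P.W (γ s)) s)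
    (hFF : ∀ i s, 0 < P.FF i (γ s).2.2) {K : NNReal} (hK : LipschitzWith K P.W)
    (i : Fin 3) (l : ℤ) (sm s1 : ℝ) (hm : (γ sm).2.2.2 = (P.cen i).2 - 1 / 16)
    (h1 : (γ s1).2.2.2 = (P.cen i).2 - rr) (hz : (γ sm).2.2.1 = (P.cen i).1 + l) : False := by
  have hmono := time_mono hγ hFF
  have hr : rr = 1 / 40 := rfl
  have hlt : sm < s1 := by
    rw [← hmono.lt_iff_lt, h1, hm, hr]
    linarith
  have hd : ∀ s, HasDerivAt (fun s => (γ s).2.2.1 - ((P.cen i).1 + l)) (P.W (γ s)).2.2.1 s :=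
    fun s => (hasDeriv_3 hγ s).sub_const _
  have key := eq_zero_of_abs_deriv_le_mul_abs_self_of_eq_zero_right
    (f := fun s => (γ s).2.2.1 - ((P.cen i).1 + l)) (f' := fun s => (P.W (γ s)).2.2.1)
    (K := K) (a := sm) (b := s1) (fun s _ => (hd s).continuousAt.continuousWithinAt)
    (fun s _ => (hd s).hasDerivWithinAt) (by rw [hz]; ring) ?_ s1
    (Set.right_mem_Icc.2 hlt.le)
  · have hz1 : (γ s1).2.2.1 = (P.cen i).1 + l := by
      linarith
    have hin : inPlug P i l 0 (γ s1) := by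
      constructor
      · rw [hz1]
        norm_num
      · rw [h1, hr, abs_lt]
        push_cast
        constructor <;> linarith
    have h2 := hFF i s1
    rw [FF_plug P i l 0 _ hin, hz1, h1] at h2
    have h3 : rho ((P.cen i).1 + l - (P.cen i).1 - l, (P.cen i).2 - rr - (P.cen i).2 - (0 : ℤ))
        = 1 := by
      unfold rho
      push_cast
      have e1 : (P.cen i).1 + (l : ℝ) - (P.cen i).1 - l = 0 := by ring
      have e2 : (P.cen i).2 - rr - (P.cen i).2 - 0 = -rr := by ring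
      simp only [e1, e2]
      rw [hr]
      norm_num
    rw [h3, ff_one] at h2
    exact lt_irrefl _ h2
  · intro s hs
    have a1 : (γ sm).2.2.2 ≤ (γ s).2.2.2 := hmono.monotone hs.1
    have a2 : (γ s).2.2.2 ≤ (γ s1).2.2.2 := hmono.monotone hs.2.le
    have a3 : |(γ s).2.2.2 - (P.cen i).2 - (0 : ℤ)| ≤ 1 / 16 := by
      rw [abs_le]
      push_cast
      constructor <;> linarith
    have a4 := Wz_axis (P := P) i l ((γ s).1, (γ s).2.1, (P.cen i).1 + l, (γ s).2.2.2) a3 rfl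
    have a5 := hK.dist_le_mul (γ s) ((γ s).1, (γ s).2.1, (P.cen i).1 + l, (γ s).2.2.2)
    have a6 : |(P.W (γ s)).2.2.1 -
        (P.W ((γ s).1, (γ s).2.1, (P.cen i).1 + l, (γ s).2.2.2)).2.2.1|
        ≤ dist (P.W (γ s)) (P.W ((γ s).1, (γ s).2.1, (P.cen i).1 + l, (γ s).2.2.2)) := by
      rw [← Real.dist_eq, Prod.dist_eq, Prod.dist_eq, Prod.dist_eq]
      exact le_max_of_le_right (le_max_of_le_right (le_max_left _ _))
    have a7 : dist (γ s) ((γ s).1, (γ s).2.1, (P.cen i).1 + l, (γ s).2.2.2)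
        = |(γ s).2.2.1 - ((P.cen i).1 + l)| := by
      rw [Prod.dist_eq, Prod.dist_eq, Prod.dist_eq]
      simp only [dist_self]
      rw [Real.dist_eq]
      simp
    rw [a4, sub_zero] at a6
    rw [a7] at a5
    simp only [Real.norm_eq_abs]
    linarith

/-- on a free interval of times the first three coordinates are constant -/
theorem free_const {γ : ℝ → V4} (hγ : ∀ s, HasDerivAt γ (P.W (γ s)) s)
    (hFF : ∀ i s, 0 < P.FF i (γ s).2.2) {a b : ℝ} (hab : a ≤ b)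
    (hW : ∀ p : V4, p.2.2.2 ∈ Set.Icc a b → P.W p = (0, 0, 0, 1)) {sa sb : ℝ}
    (ha : (γ sa).2.2.2 = a) (hb : (γ sb).2.2.2 = b) :
    (γ sb).1 = (γ sa).1 ∧ (γ sb).2.1 = (γ sa).2.1 ∧ (γ sb).2.2.1 = (γ sa).2.2.1 := by
  have hmono := time_mono hγ hFF
  have hle : sa ≤ sb := by
    rw [← hmono.le_iff_le, ha, hb]
    exact hab
  have hW' : ∀ s ∈ Set.Ico sa sb, P.W (γ s) = (0, 0, 0, 1) := by
    intro s hs
    apply hW
    rw [← ha, ← hb]
    exact ⟨hmono.monotone hs.1, hmono.monotone hs.2.le⟩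
  have c1 := constant_of_has_deriv_right_zero (f := fun s => (γ s).1) (a := sa) (b := sb)
    (fun s _ => (hasDeriv_1 hγ s).continuousAt.continuousWithinAt)
    (fun s hs => by
      have := (hasDeriv_1 hγ s).hasDerivWithinAt (s := Set.Ici s)
      rwa [hW' s hs] at this) sb (Set.right_mem_Icc.2 hle)
  have c2 := constant_of_has_deriv_right_zero (f := fun s => (γ s).2.1) (a := sa) (b := sb)
    (fun s _ => (hasDeriv_2 hγ s).continuousAt.continuousWithinAt)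
    (fun s hs => by
      have := (hasDeriv_2 hγ s).hasDerivWithinAt (s := Set.Ici s)
      rwa [hW' s hs] at this) sb (Set.right_mem_Icc.2 hle)
  have c3 := constant_of_has_deriv_right_zero (f := fun s => (γ s).2.2.1) (a := sa) (b := sb)
    (fun s _ => (hasDeriv_3 hγ s).continuousAt.continuousWithinAt)
    (fun s hs => by
      have := (hasDeriv_3 hγ s).hasDerivWithinAt (s := Set.Ici s)
      rwa [hW' s hs] at this) sb (Set.right_mem_Icc.2 hle)
  exact ⟨c1, c2, c3⟩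

theorem time_surj {γ : ℝ → V4} (hγ : ∀ s, HasDerivAt γ (P.W (γ s)) s)
    {T : ℝ} {d : ℝ} (hd : 0 < d)
    (hc : ∀ s, (γ (s + T)).2.2.2 = (γ s).2.2.2 + d) :
    Function.Surjective (fun s => (γ s).2.2.2) := by
  have hcont : Continuous (fun s => (γ s).2.2.2) := time_cont hγ
  have hp : ∀ k : ℕ, (γ (k * T)).2.2.2 = (γ 0).2.2.2 + k * d := by
    intro k
    induction k with
    | zero => simp
    | succ k ih =>
      have : ((k + 1 : ℕ) : ℝ) * T = k * T + T := by push_cast; ring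
      rw [this, hc, ih]
      push_cast
      ring
  have hm : ∀ k : ℕ, (γ (-(k * T))).2.2.2 = (γ 0).2.2.2 - k * d := by
    intro k
    induction k with
    | zero => simp
    | succ k ih =>
      have h1 := hc (-(((k + 1 : ℕ) : ℝ) * T))
      have : -(((k + 1 : ℕ) : ℝ) * T) + T = -(k * T) := by push_cast; ring
      rw [this, ih] at h1
      push_cast at h1 ⊢
      linarith
  intro c
  obtain ⟨k, hk⟩ := exists_nat_ge (|c - (γ 0).2.2.2| / d)
  rw [div_le_iff₀ hd, abs_le] at hk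
  refine mem_range_of_exists_le_of_exists_ge hcont ⟨-(k * T), ?_⟩ ⟨k * T, ?_⟩
  · rw [hm]
    linarith [hk.1]
  · rw [hp]
    linarith [hk.2]

theorem closed_orbit' (hL : ∃ K : NNReal, LipschitzWith K P.W) (γ : ℝ → V4)
    (hγ : ∀ s, HasDerivAt γ (P.W (γ s)) s)
    (T : ℝ) (hT : 0 < T) (n : V4) (hn : n ∈ Helper53.Engel.Lat) (hc : ∀ s, γ (s + T) = γ s + n)
    (hFF : ∀ i s, 0 < P.FF i (γ s).2.2) :
    ∃ (x y z : ℝ → ℝ) (N : ℕ) (a b c : ℤ), 0 < N ∧
      (∀ j : ℤ, ∀ t ∈ Set.Icc (j + 1 / 2 : ℝ) (j + 1),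
        HasDerivAt x (chi2 t * P.fX (x t) (y t)) t) ∧
      (∀ j : ℤ, ∀ t ∈ Set.Icc (j + 1 / 2 : ℝ) (j + 1),
        HasDerivAt y (chi2 t * gY (y t) + dmu t * P.be (x t)) t) ∧
      (∀ j : ℤ, ∀ t ∈ Set.Icc (j + 1 / 2 : ℝ) (j + 1),
        HasDerivAt z (P.zdot t (x t) (y t) (z t)) t) ∧
      (∀ j : ℤ, x (j + 3 / 2) = x (j + 1)) ∧ (∀ j : ℤ, y (j + 3 / 2) = y (j + 1)) ∧
      (∀ j : ℤ, z (j + 3 / 2) = z (j + 1)) ∧
      x (1 / 2 + N) = x (1 / 2) + a ∧ y (1 / 2 + N) = y (1 / 2) + b ∧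
      z (1 / 2 + N) = z (1 / 2) + c ∧
      (∀ (i : Fin 3) (l : ℤ), z (1 / 2) ≠ (P.cen i).1 + l) ∧
      ∃ s0, γ s0 = (x (1 / 2), y (1 / 2), z (1 / 2), 1 / 2) := by
  obtain ⟨K, hK⟩ := hL
  obtain ⟨a, b, c, d, rfl⟩ := hn
  have hmono := time_mono hγ hFF
  have hcd : ∀ s, (γ (s + T)).2.2.2 = (γ s).2.2.2 + d := fun s => by rw [hc]; rfl
  have hd : (0 : ℝ) < d := by
    have h1 := hmono (show (0 : ℝ) < 0 + T by linarith)
    simp only at h1
    rw [hcd] at h1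
    linarith
  have hsurj := time_surj hγ hd hcd
  -- the inverse
  obtain ⟨σ, hσ⟩ : ∃ σ : ℝ ≃o ℝ, ∀ t, (γ (σ t)).2.2.2 = t := by
    refine ⟨(StrictMono.orderIsoOfSurjective _ hmono hsurj).symm, fun t => ?_⟩
    exact (StrictMono.orderIsoOfSurjective _ hmono hsurj).apply_symm_apply t
  have hσ' : ∀ s, σ ((γ s).2.2.2) = s := fun s => hmono.injective (hσ _)
  have hσd : ∀ t, HasDerivAt σ (P.W (γ (σ t))).2.2.2⁻¹ t := fun t =>
    HasDerivAt.of_local_left_inverse (f := fun s => (γ s).2.2.2) σ.continuous.continuousAt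
      (hasDeriv_4 hγ (σ t)) (Wt_pos P _ fun i => hFF i _).ne' (Filter.Eventually.of_forall hσ)
  have hσT : ∀ t, σ (t + d) = σ t + T := by
    intro t
    have h1 : (γ (σ t + T)).2.2.2 = t + d := by rw [hcd, hσ]
    rw [← h1, hσ']
  have hσN : ∀ t, γ (σ (t + d)) = γ (σ t) + ((a : ℝ), (b : ℝ), (c : ℝ), (d : ℝ)) := fun t => by rw [hσT, hc]
  -- derivatives
  have hx : ∀ t, HasDerivAt (fun t => (γ (σ t)).1)
      ((P.W (γ (σ t))).1 * (P.W (γ (σ t))).2.2.2⁻¹) t := fun t =>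
    (hasDeriv_1 hγ (σ t)).comp t (hσd t)
  have hy : ∀ t, HasDerivAt (fun t => (γ (σ t)).2.1)
      ((P.W (γ (σ t))).2.1 * (P.W (γ (σ t))).2.2.2⁻¹) t := fun t =>
    (hasDeriv_2 hγ (σ t)).comp t (hσd t)
  have hz : ∀ t, HasDerivAt (fun t => (γ (σ t)).2.2.1)
      ((P.W (γ (σ t))).2.2.1 * (P.W (γ (σ t))).2.2.2⁻¹) t := fun t =>
    (hasDeriv_3 hγ (σ t)).comp t (hσd t)
  have hWb : ∀ j : ℤ, ∀ t ∈ Set.Icc (j + 1 / 2 : ℝ) (j + 1), P.W (γ (σ t)) =
      (chi2 t * P.fX (γ (σ t)).1 (γ (σ t)).2.1,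
        chi2 t * gY (γ (σ t)).2.1 + dmu t * P.be (γ (σ t)).1,
      P.zdot t (γ (σ t)).1 (γ (σ t)).2.1 (γ (σ t)).2.2.1, 1) := by
    intro j t ht
    have := W_base P j (γ (σ t)) (by rw [hσ]; exact ht)
    rwa [hσ] at this
  -- passages
  have hpass : ∀ (i : Fin 3) (n : ℤ), γ (σ ((P.cen i).2 + n + 1 / 16)) =
      mir ((P.cen i).2 + n) (γ (σ ((P.cen i).2 + n - 1 / 16))) := by
    intro i n
    have h1 := passage hγ hFF hK i n (σ ((P.cen i).2 + n)) (σ ((P.cen i).2 + n - 1 / 16))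
      (hσ _) (hσ _)
    rw [← h1]
    congr 1
    apply hmono.injective
    dsimp only
    rw [h1, hσ]
    unfold mir
    dsimp only
    rw [hσ]
    ring
  have hp3 : ∀ (i : Fin 3) (n : ℤ) (t t' : ℝ), t = (P.cen i).2 + n - 1 / 16 →
      t' = (P.cen i).2 + n + 1 / 16 → (γ (σ t')).1 = (γ (σ t)).1 ∧ (γ (σ t')).2.1 = (γ (σ t)).2.1 ∧
        (γ (σ t')).2.2.1 = (γ (σ t)).2.2.1 := by
    intro i n t t' ht ht'
    rw [ht', hpass i n, ← ht]
    exact ⟨rfl, rfl, rfl⟩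
  have hgap : ∀ (j : ℤ) (t t' : ℝ), (t = j ∧ t' = j + 1 / 16 ∨ t = j + 7 / 16 ∧ t' = j + 1 / 2) →
      (γ (σ t')).1 = (γ (σ t)).1 ∧ (γ (σ t')).2.1 = (γ (σ t)).2.1 ∧
        (γ (σ t')).2.2.1 = (γ (σ t)).2.2.1 := by
    intro j t t' h
    refine free_const hγ hFF (a := t) (b := t') ?_ ?_ (hσ t) (hσ t')
    · rcases h with ⟨h1, h2⟩ | ⟨h1, h2⟩ <;> rw [h1, h2] <;> linarith
    · intro p hp
      apply W_gap j p
      rcases h with ⟨h1, h2⟩ | ⟨h1, h2⟩
      · left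
        rw [h1, h2] at hp
        exact hp
      · right
        rw [h1, h2] at hp
        exact hp
  have c0 : (P.cen 0).2 = 1 / 8 := rfl
  have c1 : (P.cen 1).2 = 1 / 4 := rfl
  have c2 : (P.cen 2).2 = 3 / 8 := rfl
  -- values at the ends of the windows of the slot `[j, j + 1/2]`
  have hslot : ∀ (j : ℤ), (∀ t ∈ ({(j : ℝ) + 1 / 16, (j : ℝ) + 3 / 16, (j : ℝ) + 5 / 16,
      (j : ℝ) + 7 / 16, (j : ℝ) + 1 / 2} : Set ℝ), (γ (σ t)).1 = (γ (σ j)).1 ∧
        (γ (σ t)).2.1 = (γ (σ j)).2.1 ∧ (γ (σ t)).2.2.1 = (γ (σ j)).2.2.1) := by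
    intro j
    have g1 := hgap j j (j + 1 / 16) (Or.inl ⟨rfl, rfl⟩)
    have g2 := hp3 0 j (j + 1 / 16) (j + 3 / 16) (by rw [c0]; ring) (by rw [c0]; ring)
    have g3 := hp3 1 j (j + 3 / 16) (j + 5 / 16) (by rw [c1]; ring) (by rw [c1]; ring)
    have g4 := hp3 2 j (j + 5 / 16) (j + 7 / 16) (by rw [c2]; ring) (by rw [c2]; ring)
    have g5 := hgap j (j + 7 / 16) (j + 1 / 2) (Or.inr ⟨rfl, rfl⟩)
    intro t ht
    simp only [Set.mem_insert_iff, Set.mem_singleton_iff] at ht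
    rcases ht with rfl | rfl | rfl | rfl | rfl
    · exact g1
    · rw [g2.1, g2.2.1, g2.2.2]
      exact g1
    · rw [g3.1, g3.2.1, g3.2.2, g2.1, g2.2.1, g2.2.2]
      exact g1
    · rw [g4.1, g4.2.1, g4.2.2, g3.1, g3.2.1, g3.2.2, g2.1, g2.2.1, g2.2.2]
      exact g1
    · rw [g5.1, g5.2.1, g5.2.2, g4.1, g4.2.1, g4.2.2, g3.1, g3.2.1, g3.2.2, g2.1, g2.2.1, g2.2.2]
      exact g1
  have hend : ∀ j : ℤ, (γ (σ (j + 3 / 2))).1 = (γ (σ (j + 1))).1 ∧
        (γ (σ (j + 3 / 2))).2.1 = (γ (σ (j + 1))).2.1 ∧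
        (γ (σ (j + 3 / 2))).2.2.1 = (γ (σ (j + 1))).2.2.1 := by
    intro j
    have h1 := hslot (j + 1) ((j : ℝ) + 3 / 2) (by
      simp only [Set.mem_insert_iff, Set.mem_singleton_iff]
      right; right; right; right
      push_cast
      ring)
    push_cast at h1
    exact h1
  obtain ⟨N, hN⟩ : ∃ N : ℕ, (N : ℤ) = d := ⟨d.toNat, Int.toNat_of_nonneg (by exact_mod_cast hd.le)⟩
  have hN' : (N : ℝ) = d := by exact_mod_cast congrArg (fun k : ℤ => (k : ℝ)) hN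
  refine ⟨fun t => (γ (σ t)).1, fun t => (γ (σ t)).2.1, fun t => (γ (σ t)).2.2.1, N, a, b, c,
    ?_, ?_, ?_, ?_, fun j => (hend j).1, fun j => (hend j).2.1, fun j => (hend j).2.2, ?_, ?_, ?_,
    ?_, σ (1 / 2), ?_⟩
  · have : (0 : ℝ) < N := by rw [hN']; exact hd
    exact_mod_cast this
  · intro j t ht
    have := hx t
    rw [hWb j t ht] at this
    simpa using this
  · intro j t ht
    have := hy t
    rw [hWb j t ht] at this
    simpa using this
  · intro j t ht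
    have := hz t
    rw [hWb j t ht] at this
    simpa using this
  · rw [hN']
    exact congrArg (fun v : V4 => v.1) (hσN (1 / 2))
  · rw [hN']
    exact congrArg (fun v : V4 => v.2.1) (hσN (1 / 2))
  · rw [hN']
    exact congrArg (fun v : V4 => v.2.2.1) (hσN (1 / 2))
  · intro i l hz0
    have h1 := hslot 0
    have e0 := (h1 ((0 : ℤ) + 1 / 2) (by simp)).2.2
    have hm : (γ (σ ((P.cen i).2 - 1 / 16))).2.2.1 = (P.cen i).1 + l := by
      have e1 : ((P.cen i).2 - 1 / 16) ∈ ({((0 : ℤ) : ℝ) + 1 / 16, ((0 : ℤ) : ℝ) + 3 / 16,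
          ((0 : ℤ) : ℝ) + 5 / 16, ((0 : ℤ) : ℝ) + 7 / 16, ((0 : ℤ) : ℝ) + 1 / 2} : Set ℝ) := by
        rw [cen_snd]
        fin_cases i
        · left
          norm_num
        · right; left
          norm_num
        · right; right; left
          norm_num
      rw [(h1 _ e1).2.2, ← e0, ← hz0]
      norm_num
    exact axis_false hγ hFF hK i l _ (σ ((P.cen i).2 - rr)) (hσ _) (hσ _) hm
  · refine Prod.ext rfl (Prod.ext rfl (Prod.ext rfl ?_))
    exact hσ _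

end Pool.Agent.Helper28.Engel

namespace Pool.Agent.Helper53.Engel

/-- Task I2 -/
theorem closed_orbit (P : Par) (hP : P.Good) (γ : ℝ → V4) (hγ : ∀ s, HasDerivAt γ (P.W (γ s)) s)
    (T : ℝ) (hT : 0 < T) (n : V4) (hn : n ∈ Lat) (hc : ∀ s, γ (s + T) = γ s + n)
    (hFF : ∀ i s, 0 < P.FF i (γ s).2.2) :
    ∃ (x y z : ℝ → ℝ) (N : ℕ) (a b c : ℤ), 0 < N ∧
      (∀ j : ℤ, ∀ t ∈ Set.Icc (j + 1 / 2 : ℝ) (j + 1),
        HasDerivAt x (chi2 t * P.fX (x t) (y t)) t) ∧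
      (∀ j : ℤ, ∀ t ∈ Set.Icc (j + 1 / 2 : ℝ) (j + 1),
        HasDerivAt y (chi2 t * gY (y t) + dmu t * P.be (x t)) t) ∧
      (∀ j : ℤ, ∀ t ∈ Set.Icc (j + 1 / 2 : ℝ) (j + 1),
        HasDerivAt z (P.zdot t (x t) (y t) (z t)) t) ∧
      (∀ j : ℤ, x (j + 3 / 2) = x (j + 1)) ∧ (∀ j : ℤ, y (j + 3 / 2) = y (j + 1)) ∧
      (∀ j : ℤ, z (j + 3 / 2) = z (j + 1)) ∧
      x (1 / 2 + N) = x (1 / 2) + a ∧ y (1 / 2 + N) = y (1 / 2) + b ∧
      z (1 / 2 + N) = z (1 / 2) + c ∧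
      (∀ (i : Fin 3) (l : ℤ), z (1 / 2) ≠ (P.cen i).1 + l) ∧
      ∃ s0, γ s0 = (x (1 / 2), y (1 / 2), z (1 / 2), 1 / 2) :=
  Pool.Agent.Helper28.Engel.closed_orbit' (W_lipschitz P) γ hγ T hT n hn hc hFF

end Pool.Agent.Helper53.Engel
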